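import Pool.Agent.Helper144.NR.Zero

set_option autoImplicit false

/-!
The singular part of a continuous linear functional on the space of bounded sequences.
-/

namespace Pool.Agent.Helper144.NR

open Filter Topology MeasureTheory Pool.Agent.Helper144.BL BoundedContinuousFunction

/-- The bounded sequence which is one at `n` and zero elsewhere. -/
noncomputable def ee (n : ℕ) : ℕ →ᵇ ℝ :=
  ofNormedAddCommGroupDiscrete (fun m => if m = n then 1 else 0) 1 fun m => by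
    split_ifs <;> norm_num

open Classical in
/-- The bounded sequence which is `1` on the set `S` and `-1` elsewhere. -/
noncomputable def sg (S : Set ℕ) : ℕ →ᵇ ℝ :=
  ofNormedAddCommGroupDiscrete (fun m => if m ∈ S then 1 else -1) 1 fun m => by
    split_ifs <;> norm_num

/-- The singular part of the functional `φ`: the difference of `φ x` and `∑ φ (e n) * x n`. -/
noncomputable def sing (φ : (ℕ →ᵇ ℝ) →L[ℝ] ℝ) (x : ℕ →ᵇ ℝ) : ℝ := φ x - ∑' n, φ (ee n) * x n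

/-- The functional `z ↦ φ (y z)`. -/
noncomputable def twist (φ : (ℕ →ᵇ ℝ) →L[ℝ] ℝ) (y : ℕ →ᵇ ℝ) : (ℕ →ᵇ ℝ) →L[ℝ] ℝ :=
  φ.comp (ContinuousLinearMap.mul ℝ (ℕ →ᵇ ℝ) y)

theorem twist_apply (φ : (ℕ →ᵇ ℝ) →L[ℝ] ℝ) (y z : ℕ →ᵇ ℝ) : twist φ y z = φ (y * z) := rfl

theorem ee_apply (n m : ℕ) : ee n m = if m = n then 1 else 0 := rfl

theorem sg_apply_mem {S : Set ℕ} {m : ℕ} (h : m ∈ S) : sg S m = 1 := by
  classical
  exact if_pos h

theorem sg_apply_not_mem {S : Set ℕ} {m : ℕ} (h : m ∉ S) : sg S m = -1 := by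
  classical
  exact if_neg h

theorem sg_mul_self (S : Set ℕ) : sg S * sg S = 1 := by
  ext m
  by_cases h : m ∈ S
  · simp [sg_apply_mem h]
  · simp [sg_apply_not_mem h]

theorem sum_apply' (F : Finset ℕ) (c : ℕ → ℝ) (m : ℕ) :
    (∑ n ∈ F, c n • ee n : ℕ →ᵇ ℝ) m = if m ∈ F then c m else 0 := by
  classical
  induction F using Finset.induction_on with
  | empty => simp
  | insert a F ha ih =>
    rw [Finset.sum_insert ha, BoundedContinuousFunction.add_apply, ih,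
      BoundedContinuousFunction.smul_apply, ee_apply]
    by_cases h : m = a
    · subst h
      simp [ha]
    · simp [h]

theorem sum_abs_le (φ : (ℕ →ᵇ ℝ) →L[ℝ] ℝ) (F : Finset ℕ) : ∑ n ∈ F, |φ (ee n)| ≤ ‖φ‖ := by
  classical
  have h1 : ∑ n ∈ F, |φ (ee n)| =
      φ (∑ n ∈ F, (if 0 ≤ φ (ee n) then (1 : ℝ) else -1) • ee n) := by
    rw [map_sum]
    refine Finset.sum_congr rfl fun n _ => ?_
    rw [map_smul, smul_eq_mul]
    split_ifs with h
    · rw [abs_of_nonneg h, one_mul]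
    · rw [abs_of_neg (not_le.1 h)]
      ring
  have h2 : ‖(∑ n ∈ F, (if 0 ≤ φ (ee n) then (1 : ℝ) else -1) • ee n : ℕ →ᵇ ℝ)‖ ≤ 1 := by
    rw [BoundedContinuousFunction.norm_le zero_le_one]
    intro m
    rw [sum_apply' F (fun n => if 0 ≤ φ (ee n) then (1 : ℝ) else -1) m]
    split_ifs <;> norm_num
  rw [h1]
  refine (le_abs_self _).trans ((φ.le_opNorm _).trans ?_)
  calc ‖φ‖ * ‖(∑ n ∈ F, (if 0 ≤ φ (ee n) then (1 : ℝ) else -1) • ee n : ℕ →ᵇ ℝ)‖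
      ≤ ‖φ‖ * 1 := mul_le_mul_of_nonneg_left h2 (norm_nonneg φ)
    _ = ‖φ‖ := mul_one _

theorem summable_abs (φ : (ℕ →ᵇ ℝ) →L[ℝ] ℝ) : Summable fun n => |φ (ee n)| :=
  summable_of_sum_le (fun _ => abs_nonneg _) (sum_abs_le φ)

theorem tsum_abs_le (φ : (ℕ →ᵇ ℝ) →L[ℝ] ℝ) : ∑' n, |φ (ee n)| ≤ ‖φ‖ :=
  Summable.tsum_le_of_sum_le (summable_abs φ) (sum_abs_le φ)

theorem abs_mul_le (φ : (ℕ →ᵇ ℝ) →L[ℝ] ℝ) (x : ℕ →ᵇ ℝ) (n : ℕ) :
    |φ (ee n) * x n| ≤ |φ (ee n)| * ‖x‖ := by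
  rw [abs_mul]
  exact mul_le_mul_of_nonneg_left (x.norm_coe_le_norm n) (abs_nonneg _)

theorem summable_mul_abs (φ : (ℕ →ᵇ ℝ) →L[ℝ] ℝ) (x : ℕ →ᵇ ℝ) :
    Summable fun n => |φ (ee n) * x n| :=
  Summable.of_nonneg_of_le (fun _ => abs_nonneg _) (abs_mul_le φ x)
    ((summable_abs φ).mul_right ‖x‖)

theorem summable_mul (φ : (ℕ →ᵇ ℝ) →L[ℝ] ℝ) (x : ℕ →ᵇ ℝ) :
    Summable fun n => φ (ee n) * x n := (summable_mul_abs φ x).of_abs

theorem sing_le (φ : (ℕ →ᵇ ℝ) →L[ℝ] ℝ) (x : ℕ →ᵇ ℝ) : |sing φ x| ≤ 2 * ‖φ‖ * ‖x‖ := by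
  have h1 : |φ x| ≤ ‖φ‖ * ‖x‖ := φ.le_opNorm x
  have h2 : |∑' n, φ (ee n) * x n| ≤ ‖φ‖ * ‖x‖ := by
    have h3 : |∑' n, φ (ee n) * x n| ≤ ∑' n, |φ (ee n) * x n| := by
      have h4 := norm_tsum_le_tsum_norm (f := fun n => φ (ee n) * x n) (summable_mul_abs φ x)
      exact h4
    refine h3.trans (((summable_mul_abs φ x).tsum_le_tsum (abs_mul_le φ x)
      ((summable_abs φ).mul_right ‖x‖)).trans ?_)
    rw [tsum_mul_right]
    exact mul_le_mul_of_nonneg_right (tsum_abs_le φ) (norm_nonneg _)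
  unfold sing
  have h3 := abs_sub (φ x) (∑' n, φ (ee n) * x n)
  linarith

theorem sing_sub (φ : (ℕ →ᵇ ℝ) →L[ℝ] ℝ) (x y : ℕ →ᵇ ℝ) :
    sing φ (x - y) = sing φ x - sing φ y := by
  unfold sing
  have h1 : (fun n => φ (ee n) * (x - y) n) = fun n => φ (ee n) * x n - φ (ee n) * y n := by
    funext n
    rw [BoundedContinuousFunction.sub_apply]
    ring
  rw [h1, (summable_mul φ x).tsum_sub (summable_mul φ y), φ.map_sub]
  ring

theorem sing_neg (φ : (ℕ →ᵇ ℝ) →L[ℝ] ℝ) (x : ℕ →ᵇ ℝ) : sing φ (-x) = -sing φ x := by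
  unfold sing
  have h1 : (fun n => φ (ee n) * (-x) n) = fun n => -(φ (ee n) * x n) := by
    funext n
    rw [BoundedContinuousFunction.neg_apply]
    ring
  rw [h1, tsum_neg, map_neg]
  ring

theorem sub_sing (φ ψ : (ℕ →ᵇ ℝ) →L[ℝ] ℝ) (x : ℕ →ᵇ ℝ) :
    sing (φ - ψ) x = sing φ x - sing ψ x := by
  unfold sing
  have h1 : (fun n => (φ - ψ) (ee n) * x n) = fun n => φ (ee n) * x n - ψ (ee n) * x n := by
    funext n
    rw [_root_.sub_apply]
    ring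
  rw [h1, (summable_mul φ x).tsum_sub (summable_mul ψ x), _root_.sub_apply]
  ring

theorem sing_finite (φ : (ℕ →ᵇ ℝ) →L[ℝ] ℝ) (x : ℕ →ᵇ ℝ) (m : ℕ) (h : ∀ n, m ≤ n → x n = 0) :
    sing φ x = 0 := by
  have h1 : x = ∑ n ∈ Finset.range m, x n • ee n := by
    ext k
    rw [sum_apply' (Finset.range m) (fun n => x n) k]
    split_ifs with hk
    · rfl
    · exact h k (by simpa using hk)
  have h2 : φ x = ∑ n ∈ Finset.range m, φ (ee n) * x n := by
    conv_lhs => rw [h1]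
    rw [map_sum]
    refine Finset.sum_congr rfl fun n _ => ?_
    rw [map_smul, smul_eq_mul, mul_comm]
  have h3 : ∑' n, φ (ee n) * x n = ∑ n ∈ Finset.range m, φ (ee n) * x n :=
    tsum_eq_sum fun n hn => by
      rw [h n (by simpa using hn), mul_zero]
  unfold sing
  rw [h2, h3, sub_self]

theorem sing_twist (φ : (ℕ →ᵇ ℝ) →L[ℝ] ℝ) (y z : ℕ →ᵇ ℝ) :
    sing (twist φ y) z = sing φ (y * z) := by
  unfold sing
  rw [twist_apply]
  congr 2
  funext n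
  have h1 : y * ee n = y n • ee n := by
    ext k
    rw [BoundedContinuousFunction.mul_apply, BoundedContinuousFunction.smul_apply, ee_apply,
      smul_eq_mul]
    split_ifs with h
    · rw [h]
    · simp
  rw [twist_apply, h1, map_smul, smul_eq_mul, BoundedContinuousFunction.mul_apply]
  ring

theorem sing_dig_zero (ψ : (ℕ →ᵇ ℝ) →L[ℝ] ℝ) (w : ℕ →ᵇ ℝ)
    (hE : NullMeasurableSet {r : ℝ | sing ψ (w * sg (dig r)) < 0} volume) :
    volume ({r : ℝ | sing ψ (w * sg (dig r)) ≠ 0} ∩ Set.Ioo (0 : ℝ) 1) = 0 := by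
  refine ae_zero (fun r => sing ψ (w * sg (dig r))) (fun r => ?_) (fun r m => ?_) (fun r hr => ?_)
    hE
  · change sing ψ (w * sg (dig (r + 1))) = sing ψ (w * sg (dig r))
    rw [dig_add_one]
  · change sing ψ (w * sg (dig (r + 1 / 2 ^ m))) = sing ψ (w * sg (dig r))
    have h1 := sing_finite ψ (w * sg (dig (r + 1 / 2 ^ m)) - w * sg (dig r)) m fun n hn => by
      have h2 := dig_add_dyadic r m n hn
      rw [BoundedContinuousFunction.sub_apply, BoundedContinuousFunction.mul_apply,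
        BoundedContinuousFunction.mul_apply]
      by_cases h3 : n ∈ dig r
      · rw [sg_apply_mem h3, sg_apply_mem (h2.2 h3), sub_self]
      · rw [sg_apply_not_mem h3, sg_apply_not_mem fun h4 => h3 (h2.1 h4), sub_self]
    rw [sing_sub] at h1
    linarith
  · change sing ψ (w * sg (dig (-r))) = -sing ψ (w * sg (dig r))
    have h1 : dig (-r) = (dig r)ᶜ := dig_neg r fun n z hz => hr ⟨n, z, hz⟩
    have h2 : w * sg (dig (-r)) = -(w * sg (dig r)) := by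
      rw [h1]
      ext n
      rw [BoundedContinuousFunction.neg_apply, BoundedContinuousFunction.mul_apply,
        BoundedContinuousFunction.mul_apply]
      by_cases h3 : n ∈ dig r
      · rw [sg_apply_mem h3, sg_apply_not_mem (S := (dig r)ᶜ) fun h4 => h4 h3]
        ring
      · rw [sg_apply_not_mem h3, sg_apply_mem (S := (dig r)ᶜ) h3]
        ring
    rw [h2, sing_neg]

theorem main (φ : (ℕ →ᵇ ℝ) →L[ℝ] ℝ) (ψ : ℕ → ((ℕ →ᵇ ℝ) →L[ℝ] ℝ))
    (h : ∀ S : Set ℕ, twist φ (sg S) ∈ closure (Set.range ψ)) (w : ℕ →ᵇ ℝ)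
    (hw : sing φ w ≠ 0) :
    ∃ j, ¬ NullMeasurableSet {r : ℝ | sing (ψ j) (w * sg (dig r)) < 0} volume := by
  by_contra hc
  push Not at hc
  obtain ⟨r, hr⟩ := exists_zero (fun j r => sing (ψ j) (w * sg (dig r)))
    fun j => sing_dig_zero (ψ j) w (hc j)
  have h1 : 0 < |sing φ w| := abs_pos.2 hw
  set K : ℝ := ‖w * sg (dig r)‖ with hK
  have hK0 : 0 ≤ K := norm_nonneg _
  obtain ⟨θ, ⟨j, rfl⟩, hj⟩ := (Metric.mem_closure_iff (α := (ℕ →ᵇ ℝ) →L[ℝ] ℝ)).1 (h (dig r))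
    (|sing φ w| / (2 * K + 1)) (by positivity)
  have h2 := sing_le (twist φ (sg (dig r)) - ψ j) (w * sg (dig r))
  rw [sub_sing, sing_twist, hr j, sub_zero] at h2
  have h3 : sg (dig r) * (w * sg (dig r)) = w := by
    rw [mul_comm w, ← mul_assoc, sg_mul_self, one_mul]
  rw [h3] at h2
  have hj' : ‖twist φ (sg (dig r)) - ψ j‖ < |sing φ w| / (2 * K + 1) :=
    lt_of_eq_of_lt (dist_eq_norm (twist φ (sg (dig r))) (ψ j)).symm hj
  rw [lt_div_iff₀ (by positivity)] at hj'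
  have h4 := norm_nonneg (twist φ (sg (dig r)) - ψ j)
  rw [← hK] at h2
  have h5 : ‖twist φ (sg (dig r)) - ψ j‖ * (2 * K + 1) =
      2 * ‖twist φ (sg (dig r)) - ψ j‖ * K + ‖twist φ (sg (dig r)) - ψ j‖ := by ring
  linarith

theorem exists_sing (φ : (ℕ →ᵇ ℝ) →L[ℝ] ℝ)
    (hφ : ¬ ∃ a : ℕ → ℝ, (Summable fun n => |a n|) ∧ ∀ x : ℕ →ᵇ ℝ, φ x = ∑' n, a n * x n) :
    ∃ w, sing φ w ≠ 0 := by
  by_contra hc
  push Not at hc
  exact hφ ⟨fun n => φ (ee n), summable_abs φ, fun x => sub_eq_zero.1 (hc x)⟩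

end Pool.Agent.Helper144.NR
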