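import Pool.Agent.Helper144.NR.Sing

set_option autoImplicit false

/-!
Well-ordered unions of null sets (Sierpinski's argument), and the theorem for functionals which are
limits of a well-ordered family.
-/

namespace Pool.Agent.Helper144.NR

open Filter Topology MeasureTheory Pool.Agent.Helper144.BL BoundedContinuousFunction

theorem fubini_null {s : Set (ℝ × ℝ)}
    (hs : NullMeasurableSet s ((volume : Measure ℝ).prod (volume : Measure ℝ)))
    (h : ∀ x, volume (Prod.mk x ⁻¹' s) = 0) :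
    ((volume : Measure ℝ).prod (volume : Measure ℝ)) s = 0 := by
  obtain ⟨t, hst, htm, hte⟩ := hs.exists_measurable_superset_ae_eq
  have h1 : ((volume : Measure ℝ).prod (volume : Measure ℝ)) (t \ s) = 0 := ae_le_set.1 hte.le
  have h2 := Measure.measure_ae_null_of_prod_null h1
  have h3 : ((volume : Measure ℝ).prod (volume : Measure ℝ)) t = 0 := by
    refine Measure.measure_prod_null_of_ae_null htm ?_
    filter_upwards [h2] with x hx
    refine measure_mono_null (t := (Prod.mk x ⁻¹' s) ∪ (Prod.mk x ⁻¹' (t \ s))) ?_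
      (measure_union_null (h x) hx)
    intro y hy
    by_cases hys : (x, y) ∈ s
    · exact Or.inl hys
    · exact Or.inr ⟨hy, hys⟩
  exact measure_mono_null hst h3

theorem fubini_null' {s : Set (ℝ × ℝ)}
    (hs : NullMeasurableSet s ((volume : Measure ℝ).prod (volume : Measure ℝ)))
    (h : ∀ y, volume {x : ℝ | (x, y) ∈ s} = 0) :
    ((volume : Measure ℝ).prod (volume : Measure ℝ)) s = 0 := by
  have hsw := Measure.measurePreserving_swap (μ := (volume : Measure ℝ)) (ν := (volume : Measure ℝ))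
  have h1 := hsw.measure_preimage hs
  rw [← h1]
  exact fubini_null (hs.preimage hsw.quasiMeasurePreserving) h

theorem key {ι : Type*} [LinearOrder ι] (N : ι → Set ℝ) (hN : ∀ i, volume (N i) = 0)
    (hP : NullMeasurableSet {p : ℝ × ℝ | ∃ i, p.2 ∈ N i ∧ ∀ j < i, p.1 ∉ N j}
      ((volume : Measure ℝ).prod (volume : Measure ℝ)))
    (X : Set ℝ) (hX : NullMeasurableSet X volume)
    (hsub : ∀ r ∈ X, ∃ i, r ∈ N i ∧ volume (⋃ j < i, N j) = 0) : volume X = 0 := by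
  have hXX : NullMeasurableSet (X ×ˢ X) ((volume : Measure ℝ).prod (volume : Measure ℝ)) :=
    hX.prod hX
  have h1 : ((volume : Measure ℝ).prod (volume : Measure ℝ))
      ((X ×ˢ X) ∩ {p : ℝ × ℝ | ∃ i, p.2 ∈ N i ∧ ∀ j < i, p.1 ∉ N j}) = 0 := by
    refine fubini_null (hXX.inter hP) fun r => ?_
    by_cases hr : r ∈ X
    · obtain ⟨i, hi, hU⟩ := hsub r hr
      refine measure_mono_null ?_ (measure_union_null hU (hN i))
      rintro s ⟨-, i', hs, hs'⟩
      rcases lt_trichotomy i' i with h | h | h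
      · exact Or.inl (Set.mem_iUnion₂.2 ⟨i', h, hs⟩)
      · exact Or.inr (h ▸ hs)
      · exact (hs' i h hi).elim
    · refine measure_mono_null ?_ (measure_empty (μ := (volume : Measure ℝ)))
      rintro s ⟨⟨h2, -⟩, -⟩
      exact (hr h2).elim
  have h2 : ((volume : Measure ℝ).prod (volume : Measure ℝ))
      ((X ×ˢ X) \ {p : ℝ × ℝ | ∃ i, p.2 ∈ N i ∧ ∀ j < i, p.1 ∉ N j}) = 0 := by
    refine fubini_null' (hXX.diff hP) fun s => ?_
    by_cases hs : s ∈ X
    · obtain ⟨i, hi, hU⟩ := hsub s hs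
      refine measure_mono_null ?_ hU
      rintro r ⟨-, h3⟩
      by_contra h4
      refine h3 ⟨i, hi, fun j hj h5 => h4 (Set.mem_iUnion₂.2 ⟨j, hj, h5⟩)⟩
    · refine measure_mono_null ?_ (measure_empty (μ := (volume : Measure ℝ)))
      rintro r ⟨⟨-, h2⟩, -⟩
      exact (hs h2).elim
  have h3 : ((volume : Measure ℝ).prod (volume : Measure ℝ)) (X ×ˢ X) = 0 := by
    rw [← Set.inter_union_diff (X ×ˢ X) {p : ℝ × ℝ | ∃ i, p.2 ∈ N i ∧ ∀ j < i, p.1 ∉ N j}]
    exact measure_union_null h1 h2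
  rw [Measure.prod_prod] at h3
  exact mul_self_eq_zero.1 h3

theorem initial_null {ι : Type*} [LinearOrder ι] [WellFoundedLT ι] (N : ι → Set ℝ)
    (hN : ∀ i, volume (N i) = 0)
    (hP : NullMeasurableSet {p : ℝ × ℝ | ∃ i, p.2 ∈ N i ∧ ∀ j < i, p.1 ∉ N j}
      ((volume : Measure ℝ).prod (volume : Measure ℝ)))
    (hU : ∀ i, NullMeasurableSet (⋃ j < i, N j) volume) (i : ι) :
    volume (⋃ j < i, N j) = 0 := by
  induction i using WellFoundedLT.induction with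
  | _ i ih =>
    refine key N hN hP _ (hU i) fun r hr => ?_
    obtain ⟨j, hj, hrj⟩ := Set.mem_iUnion₂.1 hr
    exact ⟨j, hrj, ih j hj⟩

/-- The set of the `r` in the open unit interval such that `ψ i` does not vanish at `r`. -/
def NN {ι : Type*} (ψ : ι → ((ℕ →ᵇ ℝ) →L[ℝ] ℝ)) (w : ℕ →ᵇ ℝ) (i : ι) : Set ℝ :=
  {r : ℝ | 0 < r ∧ r < 1 ∧ sing (ψ i) (w * sg (dig r)) ≠ 0}

theorem null_NN {ι : Type*} (ψ : ι → ((ℕ →ᵇ ℝ) →L[ℝ] ℝ)) (w : ℕ →ᵇ ℝ) (i : ι)
    (hE : NullMeasurableSet {r : ℝ | sing (ψ i) (w * sg (dig r)) < 0} volume) :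
    volume (NN ψ w i) = 0 :=
  measure_mono_null (t := {r : ℝ | sing (ψ i) (w * sg (dig r)) ≠ 0} ∩ Set.Ioo (0 : ℝ) 1)
    (fun _ hr => ⟨hr.2.2, hr.1, hr.2.1⟩) (sing_dig_zero (ψ i) w hE)

theorem main_wo {ι : Type*} [LinearOrder ι] [WellFoundedLT ι] (φ : (ℕ →ᵇ ℝ) →L[ℝ] ℝ)
    (ψ : ι → ((ℕ →ᵇ ℝ) →L[ℝ] ℝ))
    (h : ∀ S : Set ℕ, twist φ (sg S) ∈ closure (Set.range ψ)) (w : ℕ →ᵇ ℝ)
    (hw : sing φ w ≠ 0) :
    (∃ i, ¬ NullMeasurableSet {r : ℝ | sing (ψ i) (w * sg (dig r)) < 0} volume) ∨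
    (∃ i, ¬ NullMeasurableSet (⋃ j < i, NN ψ w j) volume) ∨
    ¬ NullMeasurableSet {p : ℝ × ℝ | ∃ i, p.2 ∈ NN ψ w i ∧ ∀ j < i, p.1 ∉ NN ψ w j} volume := by
  by_contra hc
  push Not at hc
  obtain ⟨hc1, hc2, hc3⟩ := hc
  have hN : ∀ i, volume (NN ψ w i) = 0 := fun i => null_NN ψ w i (hc1 i)
  have hU := initial_null (NN ψ w) hN hc3 hc2
  have h7 : volume (Set.Ioo (0 : ℝ) 1) = 0 := by
    refine key (NN ψ w) hN hc3 _ measurableSet_Ioo.nullMeasurableSet fun r hr => ?_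
    by_contra h8
    have hr' : ∀ j, sing (ψ j) (w * sg (dig r)) = 0 := by
      intro j
      by_contra h9
      exact h8 ⟨j, ⟨hr.1, hr.2, h9⟩, hU j⟩
    have h1 : 0 < |sing φ w| := abs_pos.2 hw
    set K : ℝ := ‖w * sg (dig r)‖ with hK
    have hK0 : 0 ≤ K := norm_nonneg _
    obtain ⟨θ, ⟨j, rfl⟩, hj⟩ := (Metric.mem_closure_iff (α := (ℕ →ᵇ ℝ) →L[ℝ] ℝ)).1 (h (dig r))
      (|sing φ w| / (2 * K + 1)) (by positivity)
    have h2 := sing_le (twist φ (sg (dig r)) - ψ j) (w * sg (dig r))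
    rw [sub_sing, sing_twist, hr' j, sub_zero] at h2
    have h3 : sg (dig r) * (w * sg (dig r)) = w := by
      rw [mul_comm w, ← mul_assoc, sg_mul_self, one_mul]
    rw [h3] at h2
    have hj' : ‖twist φ (sg (dig r)) - ψ j‖ < |sing φ w| / (2 * K + 1) :=
      lt_of_eq_of_lt (dist_eq_norm (twist φ (sg (dig r))) (ψ j)).symm hj
    rw [lt_div_iff₀ (by positivity)] at hj'
    have h4 := norm_nonneg (twist φ (sg (dig r)) - ψ j)
    rw [← hK] at h2
    have h5 : ‖twist φ (sg (dig r)) - ψ j‖ * (2 * K + 1) =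
        2 * ‖twist φ (sg (dig r)) - ψ j‖ * K + ‖twist φ (sg (dig r)) - ψ j‖ := by ring
    linarith
  rw [Real.volume_Ioo] at h7
  norm_num at h7

end Pool.Agent.Helper144.NR
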