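import Pool.Agent.Helper144.BL.Digits

set_option autoImplicit false

/-!
An odd function on the reals which is invariant under dyadic translations and of which the set of
negative values is measurable is zero almost everywhere.
-/

namespace Pool.Agent.Helper144.NR

open Filter Topology MeasureTheory Pool.Agent.Helper144.BL

theorem dichotomy (E : Set ℝ) (h1 : ∀ r : ℝ, r + 1 ∈ E ↔ r ∈ E)
    (h2 : ∀ (r : ℝ) (m : ℕ), r + 1 / 2 ^ m ∈ E ↔ r ∈ E) (hE : NullMeasurableSet E volume) :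
    volume (E ∩ Set.Ioc (0 : ℝ) (0 + 1)) = 0 ∨ volume (Eᶜ ∩ Set.Ioc (0 : ℝ) (0 + 1)) = 0 := by
  have hz : ∀ (z : ℤ) (r : ℝ), r + z ∈ E ↔ r ∈ E := by
    intro z
    induction z with
    | zero => intro r; simp
    | succ n ih =>
      intro r
      have h4 : r + ((n + 1 : ℤ) : ℝ) = (r + ((n : ℤ) : ℝ)) + 1 := by push_cast; ring
      rw [h4, h1, ih]
    | pred n ih =>
      intro r
      rw [← h1]
      have h4 : r + ((-(n : ℤ) - 1 : ℤ) : ℝ) + 1 = r + ((-(n : ℤ) : ℤ) : ℝ) := by push_cast; ring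
      rw [h4, ih]
  set s : Set (AddCircle (1 : ℝ)) := gg ⁻¹' E with hs
  have hmem : ∀ r : ℝ, (r : AddCircle (1 : ℝ)) ∈ s ↔ r ∈ E := by
    intro r
    have h4 : ((gg (r : AddCircle (1 : ℝ)) : ℝ) : AddCircle (1 : ℝ)) = r := mk_gg _
    have h5 : ((gg (r : AddCircle (1 : ℝ)) - r : ℝ) : AddCircle (1 : ℝ)) = 0 := by
      rw [AddCircle.coe_sub, h4, sub_self]
    obtain ⟨z, hz'⟩ := (AddCircle.coe_eq_zero_iff (1 : ℝ)).1 h5
    have h6 : gg (r : AddCircle (1 : ℝ)) = r + z := by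
      rw [zsmul_eq_mul, mul_one] at hz'
      linarith
    change gg (r : AddCircle (1 : ℝ)) ∈ E ↔ r ∈ E
    rw [h6, hz]
  have hsm : NullMeasurableSet s volume := hE.preimage quasi_gg
  have hpre : (fun r : ℝ => (r : AddCircle (1 : ℝ))) ⁻¹' s = E := by
    ext r
    exact hmem r
  have hmk := AddCircle.measurePreserving_mk (1 : ℝ) 0
  rcases AddCircle.ae_empty_or_univ_of_forall_vadd_ae_eq_self (T := (1 : ℝ)) hsm
    (l := atTop) (u := fun i : ℕ => (((1 : ℝ) / ((2 ^ i : ℕ) : ℝ) : ℝ) : AddCircle (1 : ℝ)))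
    (fun i => by
      refine Filter.EventuallyEq.of_eq (Set.ext fun q => ?_)
      rw [Set.mem_vadd_set_iff_neg_vadd_mem]
      induction q using QuotientAddGroup.induction_on with
      | H r =>
        have h4 : -(((1 : ℝ) / ((2 ^ i : ℕ) : ℝ) : ℝ) : AddCircle (1 : ℝ)) +ᵥ
            ((r : ℝ) : AddCircle (1 : ℝ)) =
            ((r - 1 / 2 ^ i : ℝ) : AddCircle (1 : ℝ)) := by
          rw [vadd_eq_add, ← AddCircle.coe_neg, ← AddCircle.coe_add]
          congr 1
          push_cast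
          ring
        change _ ∈ s ↔ ((r : ℝ) : AddCircle (1 : ℝ)) ∈ s
        have h5 := h2 (r - 1 / 2 ^ i) i
        rw [sub_add_cancel] at h5
        rw [hmem, h5, ← hmem]
        exact iff_of_eq (congrArg (· ∈ s) h4))
    (by
      have h4 : (addOrderOf ∘ fun i : ℕ =>
          (((1 : ℝ) / ((2 ^ i : ℕ) : ℝ) : ℝ) : AddCircle (1 : ℝ))) = fun i => 2 ^ i := by
        funext i
        exact AddCircle.addOrderOf_period_div (by positivity)
      rw [h4]
      exact tendsto_pow_atTop_atTop_of_one_lt (by norm_num)) with h | h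
  · left
    have h5 := hmk.measure_preimage hsm
    rw [hpre, Measure.restrict_apply' measurableSet_Ioc, ae_eq_empty.1 h] at h5
    exact h5
  · right
    have h5 := hmk.measure_preimage hsm.compl
    rw [Set.preimage_compl, hpre, Measure.restrict_apply' measurableSet_Ioc,
      ae_eq_univ.1 h] at h5
    exact h5

theorem ae_zero (F : ℝ → ℝ) (h1 : ∀ r : ℝ, F (r + 1) = F r)
    (h2 : ∀ (r : ℝ) (m : ℕ), F (r + 1 / 2 ^ m) = F r) (h3 : ∀ r : ℝ, r ∉ Dy → F (-r) = -F r)
    (hE : NullMeasurableSet {r : ℝ | F r < 0} volume) :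
    volume ({r : ℝ | F r ≠ 0} ∩ Set.Ioo (0 : ℝ) 1) = 0 := by
  have h5 : volume Dy = 0 := countable_dy.measure_zero _
  have hF : ∀ r : ℝ, r ∉ Dy → F (1 - r) = -F r := by
    intro r hr
    have h9 : 1 - r = -r + 1 := by ring
    rw [h9, h1, h3 r hr]
  rcases dichotomy {r : ℝ | F r < 0} (fun r => by simp only [Set.mem_setOf_eq, h1])
    (fun r m => by simp only [Set.mem_setOf_eq, h2]) hE with h | h
  · have h4 : volume ((fun r : ℝ => 1 - r) ⁻¹' ({r : ℝ | F r < 0} ∩ Set.Ioc (0 : ℝ) (0 + 1))) = 0 :=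
      (Measure.measurePreserving_sub_left (volume : Measure ℝ) 1).quasiMeasurePreserving.preimage_null h
    refine measure_mono_null ?_ (measure_union_null (measure_union_null h h5) h4)
    rintro r ⟨hr, hr0, hr1⟩
    rcases lt_or_gt_of_ne hr with hA | hA
    · exact Or.inl (Or.inl ⟨hA, hr0, by linarith⟩)
    · by_cases hD : r ∈ Dy
      · exact Or.inl (Or.inr hD)
      · right
        refine ⟨?_, ?_, ?_⟩
        · change F (1 - r) < 0
          rw [hF r hD]
          linarith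
        · change 0 < 1 - r
          linarith
        · change 1 - r ≤ 0 + 1
          linarith
  · exfalso
    have h4 : volume ((fun r : ℝ => 1 - r) ⁻¹'
        ({r : ℝ | F r < 0}ᶜ ∩ Set.Ioc (0 : ℝ) (0 + 1))) = 0 :=
      (Measure.measurePreserving_sub_left (volume : Measure ℝ) 1).quasiMeasurePreserving.preimage_null h
    have h6 : Set.Ioo (0 : ℝ) 1 ⊆ ({r : ℝ | F r < 0}ᶜ ∩ Set.Ioc (0 : ℝ) (0 + 1)) ∪ Dy ∪
        (fun r : ℝ => 1 - r) ⁻¹' ({r : ℝ | F r < 0}ᶜ ∩ Set.Ioc (0 : ℝ) (0 + 1)) := by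
      rintro r ⟨hr0, hr1⟩
      by_cases hA : F r < 0
      · by_cases hD : r ∈ Dy
        · exact Or.inl (Or.inr hD)
        · right
          refine ⟨?_, ?_, ?_⟩
          · change ¬ F (1 - r) < 0
            rw [hF r hD]
            linarith
          · change 0 < 1 - r
            linarith
          · change 1 - r ≤ 0 + 1
            linarith
      · exact Or.inl (Or.inl ⟨hA, hr0, by linarith⟩)
    have h7 : volume (Set.Ioo (0 : ℝ) 1) = 0 :=
      measure_mono_null h6 (measure_union_null (measure_union_null h h5) h4)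
    rw [Real.volume_Ioo] at h7
    norm_num at h7

theorem exists_zero (F : ℕ → ℝ → ℝ)
    (h : ∀ j, volume ({r : ℝ | F j r ≠ 0} ∩ Set.Ioo (0 : ℝ) 1) = 0) : ∃ r, ∀ j, F j r = 0 := by
  by_contra hc
  push Not at hc
  have h6 : Set.Ioo (0 : ℝ) 1 ⊆ ⋃ j, ({r : ℝ | F j r ≠ 0} ∩ Set.Ioo (0 : ℝ) 1) := by
    intro r hr
    obtain ⟨j, hj⟩ := hc r
    exact Set.mem_iUnion.2 ⟨j, hj, hr⟩
  have h7 : volume (Set.Ioo (0 : ℝ) 1) = 0 := measure_mono_null h6 (measure_iUnion_null h)
  rw [Real.volume_Ioo] at h7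
  norm_num at h7

end Pool.Agent.Helper144.NR
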